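import Pool.Agent.K3h47.HY.Stm2
import Pool.Agent.K3h47.FU.Main2

/-! # Bricks of project HZ (helper47, MP_e09b14_ag): common lemmas -/

set_option autoImplicit false

namespace Pool.Agent.K3h41.HZ

open MvPolynomial Pool.Agent.K3h47.FU Pool.Agent.K3h47.HY

variable {N r : ℕ}

/-- a linear form at a linear combination -/
theorem eval_sub_smul {p : MvPolynomial (Fin (N + 1)) ℂ} (hp : p.IsHomogeneous 1) (s : ℂ)
    (x y : Fin (N + 1) → ℂ) : eval (fun k => y k - s * x k) p = eval y p - s * eval x p := by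
  obtain ⟨c, h1, -⟩ := lin_form hp
  rw [h1, h1, h1, Finset.mul_sum, ← Finset.sum_sub_distrib]
  exact Finset.sum_congr rfl fun k _ => by ring

/-- the derivative of a linear form -/
theorem sum_pderiv {p : MvPolynomial (Fin (N + 1)) ℂ} (hp : p.IsHomogeneous 1)
    (x u : Fin (N + 1) → ℂ) : ∑ k, eval x (pderiv k p) * u k = eval u p := by
  obtain ⟨c, h1, h2⟩ := lin_form hp
  rw [h1]
  exact Finset.sum_congr rfl fun k _ => by rw [h2]

/-- two vectors which are not proportional are separated by a linear form -/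
theorem exists_lam (F : Finset (Fin r)) (Z Z' : Fin r → ℂ)
    (h : ¬ ∃ s : ℂ, ∀ j ∈ F, Z' j = s * Z j) :
    ∃ l : Fin r → ℂ, ∑ j ∈ F, l j * Z j = 0 ∧ ∑ j ∈ F, l j * Z' j ≠ 0 := by
  classical
  by_cases h0 : ∀ j ∈ F, Z j = 0
  · obtain ⟨j, hj, hj'⟩ : ∃ j ∈ F, Z' j ≠ 0 := by
      by_contra hcon
      push Not at hcon
      exact h ⟨0, fun j hj => by rw [hcon j hj, zero_mul]⟩
    refine ⟨Pi.single j 1, ?_, ?_⟩
    · exact Finset.sum_eq_zero fun i hi => by rw [h0 i hi, mul_zero]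
    · rw [Finset.sum_eq_single_of_mem j hj (fun i _ hij => by simp [hij])]
      simpa using hj'
  · push Not at h0
    obtain ⟨i, hi, hi0⟩ := h0
    obtain ⟨j, hj, hj'⟩ : ∃ j ∈ F, Z' j ≠ (Z' i / Z i) * Z j := by
      by_contra hcon
      push Not at hcon
      exact h ⟨_, hcon⟩
    have key : ∀ Y : Fin r → ℂ, ∑ m ∈ F, ((if m = j then Z i else 0) - (if m = i then Z j else 0)) *
        Y m = Z i * Y j - Z j * Y i := by
      intro Y
      simp only [sub_mul, ite_mul, zero_mul, Finset.sum_sub_distrib, Finset.sum_ite_eq', hi, hj,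
        if_true]
    refine ⟨fun m => (if m = j then Z i else 0) - (if m = i then Z j else 0), ?_, ?_⟩
    · rw [key]; ring
    · rw [key]
      intro h1
      apply hj'
      field_simp
      linear_combination h1

theorem dd_add' {σ : Type} [Fintype σ] (p u : σ → ℂ) (Φ Ψ : MvPolynomial σ ℂ) :
    dd p u (Φ + Ψ) = dd p u Φ + dd p u Ψ := by
  simp only [dd, map_add, add_mul, Finset.sum_add_distrib]

theorem dd_C_mul {σ : Type} [Fintype σ] (p u : σ → ℂ) (a : ℂ) (Φ : MvPolynomial σ ℂ) :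
    dd p u (C a * Φ) = a * dd p u Φ := by
  simp only [dd, pderiv_C_mul, Finset.mul_sum, smul_eq_mul, map_mul, eval_C, mul_assoc]

theorem dd_pow {σ : Type} [Fintype σ] [DecidableEq σ] (p u : σ → ℂ) (w : σ) (n : ℕ) :
    dd p u (X w ^ n) = n * p w ^ (n - 1) * u w := by
  simp only [dd, pderiv_pow, pderiv_X, map_mul, map_pow, eval_X, map_natCast]
  rw [Finset.sum_eq_single w]
  · simp
  · intro b _ hb
    simp [Pi.single_apply, hb.symm]
  · intro h; exact absurd (Finset.mem_univ w) h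

theorem dd_sum' {σ ι : Type} [Fintype σ] (p u : σ → ℂ) (s : Finset ι)
    (g : ι → MvPolynomial σ ℂ) : dd p u (∑ i ∈ s, g i) = ∑ i ∈ s, dd p u (g i) := by
  classical
  induction s using Finset.induction_on with
  | empty => simp [dd]
  | insert i s hi ih => rw [Finset.sum_insert hi, Finset.sum_insert hi, dd_add', ih]

/-- the linear form in the powers `z_j ^ (ε_j)` -/
noncomputable def lz (N : ℕ) (F : Finset (Fin r)) (ε : Fin r → ℕ) (l : Fin r → ℂ) :
    MvPolynomial (Fin (N + 1) ⊕ Fin r) ℂ := ∑ j ∈ F, C (l j) * X (Sum.inr j) ^ ε j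

theorem eval_lz (F : Finset (Fin r)) (ε : Fin r → ℕ) (l : Fin r → ℂ) (x : Fin (N + 1) → ℂ)
    (z : Fin r → ℂ) : eval (Sum.elim x z) (lz N F ε l) = ∑ j ∈ F, l j * z j ^ ε j := by
  simp [lz]

theorem dd_lz (F : Finset (Fin r)) (ε : Fin r → ℕ) (l : Fin r → ℂ) (x u : Fin (N + 1) → ℂ)
    (z v : Fin r → ℂ) : dd (Sum.elim x z) (Sum.elim u v) (lz N F ε l) =
      ∑ j ∈ F, l j * (ε j * z j ^ (ε j - 1) * v j) := by
  classical
  rw [lz, dd_sum']
  refine Finset.sum_congr rfl fun j _ => ?_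
  rw [dd_C_mul, dd_pow]
  rfl

variable {R : AddSubgroup (ℤ × (Fin r → ℤ))} {c : ℤ × (Fin r → ℤ)}
    {e : Fin r → ℕ} {f : Fin r → MvPolynomial (Fin (N + 1)) ℂ} {F : Finset (Fin r)} {q : ℕ}
    {ε : Fin r → ℕ} {L : ℕ} {a : Fin r → ℕ}

theorem tau (h : Frm R c e f F q ε L a) {s : ℂˣ} {t : Fin r → ℂˣ}
    (hst : ∀ ρ ∈ R, chi ρ s t = 1) {i j : Fin r} (hi : i ∈ F) (hj : j ∈ F) :
    t i ^ ε i = t j ^ ε j := by
  classical
  by_cases hij : i = j
  · rw [hij]
  · have h1 := hst _ (h.diff i hi j hj hij)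
    rw [chi] at h1
    simp only [zpow_zero, one_mul, Pi.sub_apply, zpow_sub, Finset.prod_mul_distrib,
      Finset.prod_inv_distrib] at h1
    rw [Finset.prod_eq_single i, Finset.prod_eq_single j, Pi.single_eq_same, Pi.single_eq_same,
      mul_inv_eq_one, zpow_natCast, zpow_natCast] at h1
    · exact h1
    · intro m _ hm
      rw [Pi.single_eq_of_ne hm, zpow_zero]
    · intro hm; exact absurd (Finset.mem_univ _) hm
    · intro m _ hm
      rw [Pi.single_eq_of_ne hm, zpow_zero]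
    · intro hm; exact absurd (Finset.mem_univ _) hm

/-- products of a monomial and `L + 1` linear forms in the powers are sections -/
theorem sec_mono_mul (h : Frm R c e f F q ε L a) (Ψ : MvPolynomial (Fin (N + 1) ⊕ Fin r) ℂ)
    (hΨ : ∀ (s : ℂˣ) (t : Fin r → ℂˣ) (τ : ℂ), (∀ j ∈ F, (t j : ℂ) ^ ε j = τ) →
      ∀ (x : Fin (N + 1) → ℂ) (z : Fin r → ℂ),
        eval (Sum.elim (fun k => (s : ℂ) * x k) (fun i => (t i : ℂ) * z i)) Ψ =
          τ ^ (L + 1) * eval (Sum.elim x z) Ψ) : Sec R c (mono N a * Ψ) := by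
  classical
  intro s t hst x z
  obtain ⟨j₀, hj₀, hsec⟩ := h.sec
  have h1 : chi c s t = (∏ i, t i ^ a i) * (t j₀ ^ ε j₀) ^ (L + 1) := by
    have h2 : chi c s t = chi ((0 : ℤ), fun i => (a i : ℤ) +
        (if i = j₀ then (((L + 1) * ε j₀ : ℕ) : ℤ) else 0)) s t := by
      refine chi_congr hst ?_
      convert hsec using 1
      ext i
      · simp
      · simp only [Prod.snd_sub, Pi.sub_apply]
        ring
    rw [h2, chi]
    simp only [zpow_zero, one_mul, zpow_add, Finset.prod_mul_distrib, zpow_natCast]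
    congr 1
    rw [Finset.prod_eq_single j₀]
    · rw [if_pos rfl, zpow_natCast, ← pow_mul, mul_comm]
    · intro m _ hm
      rw [if_neg hm, zpow_zero]
    · intro hm; exact absurd (Finset.mem_univ _) hm
  have h3 := hΨ s t ((t j₀ : ℂ) ^ ε j₀) (fun j hj => by
    have := tau h hst hj hj₀
    exact_mod_cast congrArg (Units.val) this) x z
  rw [map_mul, map_mul, h3, eval_mono, eval_mono, h1]
  push_cast
  simp only [mul_pow, Finset.prod_mul_distrib]
  ring

theorem lz_scale (F : Finset (Fin r)) (ε : Fin r → ℕ) (l : Fin r → ℂ) (s : ℂˣ)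
    (t : Fin r → ℂˣ) (τ : ℂ) (hτ : ∀ j ∈ F, (t j : ℂ) ^ ε j = τ)
    (x : Fin (N + 1) → ℂ) (z : Fin r → ℂ) :
    eval (Sum.elim (fun k => (s : ℂ) * x k) (fun i => (t i : ℂ) * z i)) (lz N F ε l) =
      τ * eval (Sum.elim x z) (lz N F ε l) := by
  rw [eval_lz, eval_lz, Finset.mul_sum]
  refine Finset.sum_congr rfl fun j hj => ?_
  rw [mul_pow, hτ j hj]
  ring

theorem prod_ne {a : Fin r → ℕ} {z : Fin r → ℂ} (h : ∀ i, z i = 0 → a i = 0) :
    ∏ i, z i ^ a i ≠ 0 := by
  refine Finset.prod_ne_zero_iff.2 fun i _ => ?_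
  by_cases hi : z i = 0
  · rw [h i hi, pow_zero]; exact one_ne_zero
  · exact pow_ne_zero _ hi

theorem t_FRP : S_FRP := by
  classical
  intro N r R c e f F q ε L a h x x' z z' hxx hz hz' ha
  have hnot : ¬ ∃ s : ℂ, ∀ j ∈ F, z' j ^ ε j = s * z j ^ ε j := by
    rintro ⟨s, hs⟩
    refine hxx ⟨s ^ q, ?_⟩
    have h1 := h.ind (fun k => x' k - s ^ q * x k) (fun j hj => by
      rw [eval_sub_smul (h.hom j), ← hz, ← hz', h.he j hj, pow_mul', pow_mul', hs j hj, mul_pow,
        sub_self])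
    intro k
    have := congrFun h1 k
    simpa [sub_eq_zero] using this
  obtain ⟨l, hl, hl'⟩ := exists_lam F _ _ hnot
  refine ⟨mono N a * lz N F ε l ^ (L + 1), sec_mono_mul h _ ?_, ?_, ?_⟩
  · intro s t τ hτ x z
    rw [map_pow, map_pow, lz_scale F ε l s t τ hτ, mul_pow]
  · rw [map_mul, map_pow, eval_lz, hl, zero_pow (Nat.succ_ne_zero L), mul_zero]
  · rw [map_mul, map_pow, eval_lz, eval_mono]
    exact mul_ne_zero (prod_ne ha) (pow_ne_zero _ hl')

theorem t_FRT : S_FRT := by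
  classical
  intro N r R c e f F q ε L a h x u z v hx hxu hz hv ha
  have hq : ∀ j ∈ F, 0 < q ∧ 0 < ε j := by
    intro j hj
    have h1 := h.pos j
    rw [h.he j hj] at h1
    exact ⟨Nat.pos_of_mul_pos_right h1, Nat.pos_of_mul_pos_left h1⟩
  have hnot : ¬ ∃ s : ℂ, ∀ j ∈ F, (ε j * z j ^ (ε j - 1) * v j : ℂ) = s * z j ^ ε j := by
    rintro ⟨s, hs⟩
    refine hxu ⟨q * s, ?_⟩
    have h1 := h.ind (fun k => u k - (q * s) * x k) (fun j hj => by
      rw [eval_sub_smul (h.hom j), ← hz, ← sum_pderiv (h.hom j) x u, ← hv, h.he j hj]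
      obtain ⟨hq0, hε0⟩ := hq j hj
      obtain ⟨q', rfl⟩ := Nat.exists_eq_add_of_lt hq0
      obtain ⟨ε', hε'⟩ := Nat.exists_eq_add_of_lt hε0
      have hs' := hs j hj
      rw [hε'] at hs' ⊢
      have e1 : (0 + q' + 1) * (0 + ε' + 1) - 1 = (ε' + 1) * q' + ε' := by
        have : (0 + q' + 1) * (0 + ε' + 1) = (ε' + 1) * q' + ε' + 1 := by ring
        omega
      have e2 : (0 + q' + 1) * (0 + ε' + 1) = (ε' + 1) * q' + (ε' + 1) := by ring
      have e3 : 0 + ε' + 1 - 1 = ε' := by omega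
      rw [e1, e2, pow_add, pow_add _ _ (ε' + 1)]
      rw [e3] at hs'
      push_cast at hs' ⊢
      rw [zero_add] at hs'
      linear_combination (q' + 1) * z j ^ ((ε' + 1) * q') * hs')
    intro k
    have := congrFun h1 k
    simpa [sub_eq_zero] using this
  obtain ⟨l, hl, hl'⟩ := exists_lam F _ _ hnot
  obtain ⟨j, hj, hj'⟩ : ∃ j ∈ F, z j ^ ε j ≠ 0 := by
    by_contra hcon
    push Not at hcon
    exact hx (h.ind x fun j hj => by
      rw [← hz, h.he j hj, pow_mul', hcon j hj, zero_pow (hq j hj).1.ne'])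
  refine ⟨mono N a * (lz N F ε l * lz N F ε (Pi.single j 1) ^ L), sec_mono_mul h _ ?_, ?_, ?_⟩
  · intro s t τ hτ x z
    rw [map_mul, map_mul, map_pow, map_pow, lz_scale F ε l s t τ hτ,
      lz_scale F ε (Pi.single j 1) s t τ hτ, mul_pow]
    ring
  · rw [map_mul, map_mul, eval_lz, hl, zero_mul, mul_zero]
  · rw [dd_mul, dd_mul, map_mul, map_pow, eval_lz, eval_lz, hl, eval_mono, dd_lz]
    rw [zero_mul, mul_zero, zero_mul, add_zero, zero_add]
    refine mul_ne_zero (prod_ne ha) (mul_ne_zero hl' (pow_ne_zero _ ?_))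
    rw [Finset.sum_eq_single_of_mem j hj (fun i _ hij => by simp [hij])]
    simpa using hj'

end Pool.Agent.K3h41.HZ
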