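import Pool.Agent.K3h41.HZ.Base

/-! # Bricks EQP and EQT of project HZ (helper47, MP_e09b14_ag) -/

set_option autoImplicit false

namespace Pool.Agent.K3h41.HZ

open MvPolynomial Pool.Agent.K3h47.FU Pool.Agent.K3h47.HY

variable {N r : ℕ} {R : AddSubgroup (ℤ × (Fin r → ℤ))} {c : ℤ × (Fin r → ℤ)} {M k : ℕ}

theorem mono_sec (N : ℕ) {a : Fin r → ℕ} (h : InC R c a) : Sec R c (mono N a) := by
  refine (Bi.mono a).sec ?_
  unfold InC at h
  simpa using h

theorem dd_mono (x u : Fin (N + 1) → ℂ) (z v : Fin r → ℂ) (a : Fin r → ℕ)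
    (ha : ∀ i, z i = 0 → a i = 0) :
    dd (Sum.elim x z) (Sum.elim u v) (mono N a) = (∏ i, z i ^ a i) * ∑ i, a i * (v i / z i) := by
  classical
  have key : ∀ s : Finset (Fin r), dd (Sum.elim x z) (Sum.elim u v)
      (∏ i ∈ s, (X (Sum.inr i) : MvPolynomial (Fin (N + 1) ⊕ Fin r) ℂ) ^ a i) =
      (∏ i ∈ s, z i ^ a i) * ∑ i ∈ s, a i * (v i / z i) := by
    intro s
    induction s using Finset.induction_on with
    | empty => simp [dd]
    | insert i s hi ih =>
      rw [Finset.prod_insert hi, Finset.prod_insert hi, Finset.sum_insert hi, dd_mul, ih, dd_pow]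
      have h1 : eval (Sum.elim x z) (∏ i ∈ s, (X (Sum.inr i) :
          MvPolynomial (Fin (N + 1) ⊕ Fin r) ℂ) ^ a i) = ∏ i ∈ s, z i ^ a i := by simp
      have h2 : eval (Sum.elim x z) ((X (Sum.inr i) :
          MvPolynomial (Fin (N + 1) ⊕ Fin r) ℂ) ^ a i) = z i ^ a i := by simp
      have h3 : (a i : ℂ) * (Sum.elim x z (Sum.inr i)) ^ (a i - 1) * (Sum.elim u v (Sum.inr i)) =
          z i ^ a i * (a i * (v i / z i)) := by
        simp only [Sum.elim_inr]
        by_cases hz : z i = 0
        · rw [ha i hz]; simp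
        · rcases Nat.eq_zero_or_pos (a i) with h0 | h0
          · rw [h0]; simp
          · obtain ⟨b, hb⟩ := Nat.exists_eq_add_of_lt h0
            rw [hb]
            simp only [zero_add, Nat.add_sub_cancel, pow_succ]
            field_simp
      rw [h1, h2, h3]
      ring
  exact key Finset.univ

theorem sum_eq_k (h : Eq R c M k) {a : Fin r → ℕ} (ha : InC R c a) : ∑ i, a i = k := by
  have h1 := h.deg _ ha
  simp only [Finset.sum_sub_distrib] at h1
  have h2 := h.hk
  have h3 : (∑ i, (a i : ℤ)) = k := by linarith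
  exact_mod_cast h3

/-- a monomial supported at a pair of indices which does contain the first one -/
theorem pair_pos (h : Eq R c M k) {i j : Fin r} (hij : i ≠ j) :
    ∃ a : Fin r → ℕ, (∀ m, m ≠ i → m ≠ j → a m = 0) ∧ InC R c a ∧ 0 < a i := by
  classical
  obtain ⟨a, ha, hc⟩ := h.pair i j hij
  rcases Nat.eq_zero_or_pos (a i) with h0 | h0
  · have hk : a j = k := by
      rw [← sum_eq_k h hc, Finset.sum_eq_single j]
      · intro m _ hm
        by_cases hmi : m = i
        · rw [hmi, h0]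
        · exact ha m hmi hm
      · intro hm; exact absurd (Finset.mem_univ _) hm
    have hle : M ≤ a j := hk ▸ h.le
    refine ⟨fun m => if m = i then M else if m = j then a j - M else 0, ?_, ?_, ?_⟩
    · intro m h1 h2
      simp [h1, h2]
    · have h1 := R.sub_mem (h.rel i) (h.rel j)
      have h2 := R.sub_mem hc h1
      unfold InC
      convert h2 using 1
      ext m
      · simp
      · simp only [Prod.snd_sub, Pi.sub_apply]
        by_cases hmi : m = i
        · subst hmi
          simp [h0, hij]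
        · by_cases hmj : m = j
          · subst hmj
            have : ((a m - M : ℕ) : ℤ) = a m - M := by push_cast [hle]; ring
            simp [hmi, this]
            ring
          · simp [hmi, hmj, ha m hmi hmj]
    · have := h.two
      simp only [if_true]
      omega
  · exact ⟨a, ha, hc, h0⟩

theorem third {S : Finset (Fin r)} (h3 : 3 ≤ S.card) (i j : Fin r) :
    ∃ l ∈ S, i ≠ l ∧ j ≠ l := by
  classical
  by_contra hcon
  push Not at hcon
  have h1 : S ⊆ {i, j} := by
    intro l hl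
    rw [Finset.mem_insert, Finset.mem_singleton]
    by_cases h2 : i = l
    · exact Or.inl h2.symm
    · exact Or.inr (hcon l hl h2).symm
  have := (Finset.card_le_card h1).trans Finset.card_le_two
  omega

theorem comb_sec {a b : Fin r → ℕ} (ha : InC R c a) (hb : InC R c b) (s t : ℂ) :
    Sec R c (C s * mono N a + C t * mono N b) :=
  (mono_sec N ha).add (mono_sec N hb) s t

theorem t_EQT : S_TRI3 → S_EQT := by
  classical
  intro hT N r R c M k f h hf hind x u z v hxu hz hv hS
  by_contra hcon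
  push Not at hcon
  have hl : ∀ a b : Fin r → ℕ, InC R c a → InC R c b → (∀ i, z i = 0 → a i = 0) →
      (∀ i, z i = 0 → b i = 0) →
      ∑ i, (a i : ℂ) * (v i / z i) = ∑ i, (b i : ℂ) * (v i / z i) := by
    intro a b ha hb ha0 hb0
    have h1 := hcon _ (comb_sec (N := N) ha hb (∏ i, z i ^ b i) (-∏ i, z i ^ a i)) (by
      rw [map_add, map_mul, map_mul, eval_C, eval_C, eval_mono, eval_mono]; ring)
    rw [dd_add', dd_C_mul, dd_C_mul, dd_mono x u z v a ha0, dd_mono x u z v b hb0] at h1
    have h2 := prod_ne ha0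
    have h3 := prod_ne hb0
    have h4 : ((∏ i, z i ^ b i) * (∏ i, z i ^ a i)) *
        (∑ i, (a i : ℂ) * (v i / z i) - ∑ i, (b i : ℂ) * (v i / z i)) = 0 := by
      linear_combination h1
    rcases mul_eq_zero.1 h4 with h5 | h5
    · exact absurd h5 (mul_ne_zero h3 h2)
    · exact sub_eq_zero.1 h5
  set G : AddSubgroup (Fin r → ℤ) :=
    { carrier := {b | ∑ i, (b i : ℂ) * (v i / z i) = 0}
      add_mem' := by
        intro p q hp hq
        simp only [Set.mem_ofPred_eq, Pi.add_apply, Int.cast_add, add_mul,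
          Finset.sum_add_distrib] at hp hq ⊢
        rw [hp, hq, add_zero]
      zero_mem' := by simp
      neg_mem' := by
        intro p hp
        simp only [Set.mem_ofPred_eq, Pi.neg_apply, Int.cast_neg, neg_mul,
          Finset.sum_neg_distrib] at hp ⊢
        rw [hp, neg_zero] } with hG
  have hGm : ∀ b, b ∈ G ↔ ∑ i, (b i : ℂ) * (v i / z i) = 0 := fun b => Iff.rfl
  have hrat : ∀ i j, z i ≠ 0 → z j ≠ 0 → i ≠ j → v i / z i = v j / z j := by
    intro i j hi hj hij
    obtain ⟨l, hl', hil, hjl⟩ := third hS i j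
    have hl0 : z l ≠ 0 := (Finset.mem_filter.1 hl').2
    have h1 := hT r R c M k h i j l hij hil hjl G (by
      intro a b ha hb ha0 hb0
      have e : ∀ a : Fin r → ℕ, (∀ m, m ≠ i → m ≠ j → m ≠ l → a m = 0) →
          ∀ m, z m = 0 → a m = 0 := by
        intro a ha0 m hm
        refine ha0 m ?_ ?_ ?_
        · rintro rfl; exact hi hm
        · rintro rfl; exact hj hm
        · rintro rfl; exact hl0 hm
      rw [hGm]
      have h2 := hl a b ha hb (e a ha0) (e b hb0)
      push_cast
      simp only [sub_mul, Finset.sum_sub_distrib]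
      rw [h2, sub_self])
    rw [hGm] at h1
    simp only [Pi.sub_apply, Int.cast_sub, sub_mul, Finset.sum_sub_distrib] at h1
    rw [Finset.sum_eq_single i, Finset.sum_eq_single j, Pi.single_eq_same, Pi.single_eq_same] at h1
    · have hM : (M : ℂ) ≠ 0 := by
        have := h.two
        exact_mod_cast (by omega : M ≠ 0)
      have h2 : (M : ℂ) * (v i / z i - v j / z j) = 0 := by
        push_cast at h1
        linear_combination h1
      rcases mul_eq_zero.1 h2 with h3 | h3
      · exact absurd h3 hM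
      · exact sub_eq_zero.1 h3
    · intro m _ hm
      rw [Pi.single_eq_of_ne hm]; simp
    · intro hm; exact absurd (Finset.mem_univ _) hm
    · intro m _ hm
      rw [Pi.single_eq_of_ne hm]; simp
    · intro hm; exact absurd (Finset.mem_univ _) hm
  obtain ⟨i₀, hi₀⟩ : ∃ i, z i ≠ 0 := by
    obtain ⟨i, hi⟩ : (Finset.univ.filter (fun i => z i ≠ 0)).Nonempty := by
      rw [← Finset.card_pos]; omega
    exact ⟨i, (Finset.mem_filter.1 hi).2⟩
  obtain ⟨σ, hσ⟩ : ∃ σ, σ = v i₀ / z i₀ := ⟨_, rfl⟩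
  have hvz : ∀ i, z i ≠ 0 → v i = σ * z i := by
    intro i hi
    by_cases hii : i = i₀
    · subst hii; rw [hσ]; field_simp
    · rw [hσ, ← hrat i i₀ hi hi₀ hii]; field_simp
  have h1 := hind (fun k => u k - (M * σ) * x k) (fun i => by
    rw [eval_sub_smul (hf i), ← hz, ← sum_pderiv (hf i) x u, ← hv]
    obtain ⟨m, hm⟩ := Nat.exists_eq_add_of_le h.two
    by_cases hi : z i = 0
    · rw [hi, hm]
      have e1 : 2 + m - 1 ≠ 0 := by omega
      have e2 : 2 + m ≠ 0 := by omega
      rw [zero_pow e1, zero_pow e2]; ring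
    · rw [hvz i hi, hm]
      have e1 : 2 + m - 1 = m + 1 := by omega
      have e2 : 2 + m = m + 1 + 1 := by omega
      rw [e1, e2, pow_succ _ (m + 1)]
      push_cast
      ring)
  exact hxu ⟨M * σ, fun k => by
    have := congrFun h1 k
    simpa [sub_eq_zero] using this⟩

/-- the supports of two points which are not separated -/
theorem supp_sub (h : Eq R c M k) (z z' : Fin r → ℂ) {x x' : Fin (N + 1) → ℂ}
    (hcon : ∀ Φ : MvPolynomial (Fin (N + 1) ⊕ Fin r) ℂ, Sec R c Φ → eval (Sum.elim x z) Φ = 0 →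
      eval (Sum.elim x' z') Φ = 0)
    (h2 : 2 ≤ (Finset.univ.filter (fun i => z' i ≠ 0)).card) (i : Fin r) (hi : z' i ≠ 0) :
    z i ≠ 0 := by
  classical
  intro hz
  obtain ⟨j, hj, hij⟩ : ∃ j, z' j ≠ 0 ∧ i ≠ j := by
    by_contra hc
    push Not at hc
    have h1 : Finset.univ.filter (fun i => z' i ≠ 0) ⊆ {i} := by
      intro l hl
      rw [Finset.mem_singleton]
      exact (hc l (Finset.mem_filter.1 hl).2).symm
    have := (Finset.card_le_card h1)
    rw [Finset.card_singleton] at this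
    omega
  obtain ⟨a, ha, hc, h0⟩ := pair_pos h hij
  have h1 := hcon _ (mono_sec N hc) (by
    rw [eval_mono]
    exact Finset.prod_eq_zero (Finset.mem_univ i) (by rw [hz, zero_pow h0.ne']))
  rw [eval_mono] at h1
  refine prod_ne ?_ h1
  intro m hm
  refine ha m ?_ ?_
  · rintro rfl; exact hi hm
  · rintro rfl; exact hj hm

theorem t_EQP : S_TRI3 → S_EQP := by
  classical
  intro hT N r R c M k f h hf hind x x' z z' hxx hz hz' hS hS'
  by_contra hcon
  push Not at hcon
  -- a section which does not vanish at the second point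
  obtain ⟨i₁, hi₁⟩ : ∃ i, z' i ≠ 0 := by
    obtain ⟨i, hi⟩ : (Finset.univ.filter (fun i => z' i ≠ 0)).Nonempty := by
      rw [← Finset.card_pos]; omega
    exact ⟨i, (Finset.mem_filter.1 hi).2⟩
  obtain ⟨Ψ, hΨ, hΨ1⟩ : ∃ Ψ : MvPolynomial (Fin (N + 1) ⊕ Fin r) ℂ, Sec R c Ψ ∧
      eval (Sum.elim x' z') Ψ ≠ 0 := by
    obtain ⟨l, hl, hil, -⟩ := third hS' i₁ i₁
    obtain ⟨a, ha, hc, h0⟩ := pair_pos h hil
    refine ⟨mono N a, mono_sec N hc, ?_⟩
    rw [eval_mono]
    refine prod_ne fun m hm => ha m ?_ ?_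
    · rintro rfl; exact hi₁ hm
    · rintro rfl; exact (Finset.mem_filter.1 hl).2 hm
  have hsym : ∀ Φ : MvPolynomial (Fin (N + 1) ⊕ Fin r) ℂ, Sec R c Φ →
      eval (Sum.elim x' z') Φ = 0 → eval (Sum.elim x z) Φ = 0 := by
    intro Φ hΦ h0
    by_contra h1
    have h2 := hcon _ (hΨ.add hΦ (eval (Sum.elim x z) Φ) (- eval (Sum.elim x z) Ψ)) (by
      rw [map_add, map_mul, map_mul, eval_C, eval_C]
      ring)
    rw [map_add, map_mul, map_mul, eval_C, eval_C, h0, mul_zero, add_zero] at h2
    exact (mul_ne_zero h1 hΨ1) h2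
  have s1 : ∀ i, z' i ≠ 0 → z i ≠ 0 := supp_sub h z z' hcon (by omega)
  have s2 : ∀ i, z i ≠ 0 → z' i ≠ 0 := supp_sub h z' z hsym hS
  -- the quotients
  obtain ⟨t, ht⟩ : ∃ t : Fin r → ℂˣ, ∀ i, z i ≠ 0 → (t i : ℂ) = z' i / z i := by
    refine ⟨fun i => if hi : z i ≠ 0 then Units.mk0 (z' i / z i) (div_ne_zero (s2 i hi) hi) else 1,
      fun i hi => ?_⟩
    simp [hi]
  have htz : ∀ a : Fin r → ℕ, (∀ i, z i = 0 → a i = 0) →
      ((∏ i, t i ^ a i : ℂˣ) : ℂ) * ∏ i, z i ^ a i = ∏ i, z' i ^ a i := by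
    intro a ha
    push_cast
    rw [← Finset.prod_mul_distrib]
    refine Finset.prod_congr rfl fun i _ => ?_
    by_cases hi : z i = 0
    · rw [ha i hi]; simp
    · rw [ht i hi, div_pow]
      field_simp
  have hl : ∀ a b : Fin r → ℕ, InC R c a → InC R c b → (∀ i, z i = 0 → a i = 0) →
      (∀ i, z i = 0 → b i = 0) → ∏ i, t i ^ a i = ∏ i, t i ^ b i := by
    intro a b ha hb ha0 hb0
    have h1 := hcon _ (comb_sec (N := N) ha hb (∏ i, z i ^ b i) (-∏ i, z i ^ a i)) (by
      rw [map_add, map_mul, map_mul, eval_C, eval_C, eval_mono, eval_mono]; ring)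
    rw [map_add, map_mul, map_mul, eval_C, eval_C, eval_mono, eval_mono, ← htz a ha0,
      ← htz b hb0] at h1
    have h2 := prod_ne ha0
    have h3 := prod_ne hb0
    have h4 : ((∏ i, z i ^ b i) * (∏ i, z i ^ a i)) *
        (((∏ i, t i ^ a i : ℂˣ) : ℂ) - ((∏ i, t i ^ b i : ℂˣ) : ℂ)) = 0 := by
      linear_combination h1
    rcases mul_eq_zero.1 h4 with h5 | h5
    · exact absurd h5 (mul_ne_zero h3 h2)
    · exact Units.ext (sub_eq_zero.1 h5)
  set G : AddSubgroup (Fin r → ℤ) :=
    { carrier := {b | ∏ i, t i ^ b i = 1}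
      add_mem' := by
        intro p q hp hq
        simp only [Set.mem_ofPred_eq, Pi.add_apply, zpow_add,
          Finset.prod_mul_distrib] at hp hq ⊢
        rw [hp, hq, one_mul]
      zero_mem' := by simp
      neg_mem' := by
        intro p hp
        simp only [Set.mem_ofPred_eq, Pi.neg_apply, zpow_neg,
          Finset.prod_inv_distrib] at hp ⊢
        rw [hp, inv_one] } with hG
  have hGm : ∀ b : Fin r → ℤ, b ∈ G ↔ ∏ i, t i ^ b i = 1 := fun b => Iff.rfl
  have hrat : ∀ i j, z' i ≠ 0 → z' j ≠ 0 → i ≠ j → t i ^ M = t j ^ M := by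
    intro i j hi hj hij
    obtain ⟨l, hl', hil, hjl⟩ := third hS' i j
    have hl0 : z' l ≠ 0 := (Finset.mem_filter.1 hl').2
    have h1 := hT r R c M k h i j l hij hil hjl G (by
      intro a b ha hb ha0 hb0
      have e : ∀ a : Fin r → ℕ, (∀ m, m ≠ i → m ≠ j → m ≠ l → a m = 0) →
          ∀ m, z m = 0 → a m = 0 := by
        intro a ha0 m hm
        refine ha0 m ?_ ?_ ?_
        · rintro rfl; exact s1 _ hi hm
        · rintro rfl; exact s1 _ hj hm
        · rintro rfl; exact s1 _ hl0 hm
      rw [hGm]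
      have h2 := hl a b ha hb (e a ha0) (e b hb0)
      simp only [zpow_sub, Finset.prod_mul_distrib, Finset.prod_inv_distrib, zpow_natCast]
      rw [h2, mul_inv_cancel])
    rw [hGm] at h1
    simp only [Pi.sub_apply, zpow_sub, Finset.prod_mul_distrib, Finset.prod_inv_distrib] at h1
    rw [Finset.prod_eq_single i, Finset.prod_eq_single j, Pi.single_eq_same, Pi.single_eq_same,
      mul_inv_eq_one, zpow_natCast, zpow_natCast] at h1
    · exact h1
    · intro m _ hm
      rw [Pi.single_eq_of_ne hm, zpow_zero]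
    · intro hm; exact absurd (Finset.mem_univ _) hm
    · intro m _ hm
      rw [Pi.single_eq_of_ne hm, zpow_zero]
    · intro hm; exact absurd (Finset.mem_univ _) hm
  obtain ⟨τ, hτ⟩ : ∃ τ : ℂ, τ = (t i₁ : ℂ) ^ M := ⟨_, rfl⟩
  have hpow : ∀ i, z' i ≠ 0 → z' i ^ M = τ * z i ^ M := by
    intro i hi
    have h1 : (t i : ℂ) ^ M = τ := by
      by_cases hii : i = i₁
      · rw [hii, hτ]
      · rw [hτ]
        exact_mod_cast congrArg Units.val (hrat i i₁ hi hi₁ hii)
    rw [← h1, ht i (s1 i hi), div_pow]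
    have := s1 i hi
    field_simp
  have h1 := hind (fun k => x' k - τ * x k) (fun i => by
    rw [eval_sub_smul (hf i), ← hz, ← hz']
    by_cases hi : z' i = 0
    · have hzi : z i = 0 := by
        by_contra h0
        exact s2 i h0 hi
      have hM : M ≠ 0 := by
        have := h.two
        omega
      rw [hi, hzi, zero_pow hM]; ring
    · rw [hpow i hi, sub_self])
  exact hxx ⟨τ, fun k => by
    have := congrFun h1 k
    simpa [sub_eq_zero] using this⟩

end Pool.Agent.K3h41.HZ
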